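import Pool.Agent.H344R3.FC.All

/-!
# The rules `x ^ n → x ^ (n + m)`: for every pair `(n, m) ≠ (1, 1)` and every alphabet with at
least two letters some language `L(w)` is not regular

`Pool.Agent.H344R3.FB.Step n m v v'` says that `v = p ++ x ^ n ++ q` and
`v' = p ++ x ^ (n + m) ++ q` for some words `p`, `x`, `q`, where
`Pool.Agent.H344R3.FB.pw x k` is the word `x` repeated `k` times, and
`Pool.Agent.H344R3.FB.Lang n m w` is the set of all words that are reached from `w` by finitely
many such steps. For all `n, m ≥ 1` with `(n, m) ≠ (1, 1)` and every alphabet `α`, all the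
languages `L(w)`, `w` a word over `α`, are regular if and only if `α` has at most one letter.
-/

set_option autoImplicit false

namespace Pool.Agent.Results.MP_fb4a47_lc.AllPairs

open Pool.Agent.H344R3.FB

theorem result (n m : ℕ) (hn : 1 ≤ n) (hm : 1 ≤ m) (hnm : ¬ (n = 1 ∧ m = 1)) (α : Type) :
    (∀ w : List α, (Lang n m w).IsRegular) ↔ Subsingleton α :=
  Pool.Agent.H344R3.FC.alphabets n m hn hm hnm α

end Pool.Agent.Results.MP_fb4a47_lc.AllPairs
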