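import Pool.Agent.H344R3.FB.One

/-!
# The rules `x → x ^ (1 + m)` with `m ≥ 2`: the classification of the regular `L(w)`

`Pool.Agent.H344R3.FB.Step n m v v'` says that `v = p ++ x ^ n ++ q` and
`v' = p ++ x ^ (n + m) ++ q` for some words `p`, `x`, `q`, where
`Pool.Agent.H344R3.FB.pw x k` is the word `x` repeated `k` times, and
`Pool.Agent.H344R3.FB.Lang n m w` is the set of all words that are reached from `w` by finitely
many such steps. For `n = 1` and every `m ≥ 2` the language `L(w)` is regular if and only if `w`
has at most one distinct letter.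
-/

set_option autoImplicit false

namespace Pool.Agent.Results.MP_fb4a47_lc.FirstPowers

open Pool.Agent.H344R3.FB

theorem result (m : ℕ) (hm : 2 ≤ m) {α : Type} (w : List α) :
    (Lang 1 m w).IsRegular ↔ ∀ a ∈ w, ∀ b ∈ w, a = b :=
  one_iff m hm w

end Pool.Agent.Results.MP_fb4a47_lc.FirstPowers
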