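import Pool.Agent.H344R3.FB.TwoAll

/-!
# The rules `x ^ 2 → x ^ (2 + m)` with `m ≥ 2`: non-regular languages

`Pool.Agent.H344R3.FB.Step n m v v'` says that `v = p ++ x ^ n ++ q` and
`v' = p ++ x ^ (n + m) ++ q` for some words `p`, `x`, `q`, where
`Pool.Agent.H344R3.FB.pw x k` is the word `x` repeated `k` times, and
`Pool.Agent.H344R3.FB.Lang n m w` is the set of all words that are reached from `w` by finitely
many such steps. For any two distinct letters `a`, `b` there is a word `f` of length `34` in
these two letters such that, for every `m ≥ 2` and every word `w` that contains the factor `f`,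
the language `L(w)` of the rules `x ^ 2 → x ^ (2 + m)` is not regular.
-/

set_option autoImplicit false

namespace Pool.Agent.Results.MP_fb4a47_lc.SecondPowers

open Pool.Agent.H344R3.FB

theorem result {α : Type*} (a b : α) (hab : a ≠ b) :
    ∃ f : List α, f.length = 34 ∧ (∀ c ∈ f, c = a ∨ c = b) ∧
      ∀ m : ℕ, 2 ≤ m → ∀ u v : List α, ¬ (Lang 2 m (u ++ f ++ v)).IsRegular := by
  refine ⟨wt.map fun x => if x then b else a, by rw [List.length_map, wt_length], ?_, ?_⟩
  · intro c hc
    obtain ⟨x, -, rfl⟩ := List.mem_map.1 hc
    cases x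
    · left; rfl
    · right; rfl
  · intro m hm u v
    refine two_not_regular_all _ ?_ m hm u v
    intro x y hxy
    cases x <;> cases y
    · rfl
    · exact absurd hxy hab
    · exact absurd hxy.symm hab
    · rfl

end Pool.Agent.Results.MP_fb4a47_lc.SecondPowers
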